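import Pool.Agent.helper80.SG.Spec2

/-!
# Project sq (Segre varieties, second version), module AG2: the distribution of the points

Adapted from the module ASG of the first version (Pool/Agent/helper91/SG/ASG.lean).
-/

set_option autoImplicit false
set_option linter.unusedSectionVars false

namespace Pool.Agent.SG

open MvPolynomial Module Pool.Agent.SV

theorem AG2_rkb {C : Type} [DecidableEq C] (n g : ℕ) (src tgt host : Fin g → C) (v : C)
    (hne : ∀ γ, src γ ≠ tgt γ ∧ host γ ≠ src γ ∧ host γ ≠ tgt γ) :
    ∑ γ, rkb (n + 1) (roleOf (src γ) (tgt γ) (host γ) v) =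
      2 * (n + 1) * (Finset.univ.filter (fun γ => src γ = v)).card
        + (n + 3) * (Finset.univ.filter (fun γ => host γ = v)).card := by
  rw [Finset.card_filter, Finset.card_filter, Finset.mul_sum, Finset.mul_sum,
    ← Finset.sum_add_distrib]
  refine Finset.sum_congr rfl fun γ _ => ?_
  obtain ⟨h1, h2, h3⟩ := hne γ
  generalize src γ = s at h1 h2
  generalize tgt γ = t at h1 h3
  generalize host γ = h at h2 h3
  unfold roleOf rkb
  by_cases hs : v = s
  · subst hs
    simp [h2]
  · by_cases ht : v = t
    · subst ht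
      simp [h1, h3, Ne.symm h1, hs]
    · by_cases hh : v = h
      · subst hh
        simp [hs, ht, Ne.symm hs]
      · simp [hs, ht, hh, Ne.symm hs, Ne.symm hh]

/-- the conclusion of AG2 from the data of the gadgets. -/
theorem AG2_core {C : Type} [Fintype C] [DecidableEq C] (hCFN : CFN_stmt) (hRKS : RKS_stmt)
    (m n M s : ℕ)
    (hc : ∀ g : ℕ, 4 * g ≤ n * (m + 1) →
      (s / (m + 1) + 1) * (n + 1) + 3 * g + n + 2 * (n + 1) ^ 2 + 8 ≤ M)
    (hd : n * (3 * n + 5) + 4 * (n + 1) ^ 2 ≤ M)
    (A : Finset C) (e S : C → ℕ) (g : ℕ) (src tgt host : Fin g → C)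
    (hrole : ∀ γ, src γ ∈ A ∧ tgt γ ∉ A ∧ host γ ≠ src γ ∧ host γ ≠ tgt γ)
    (hS : ∑ v, S v = s)
    (hb : ∀ v, 2 * (Finset.univ.filter (fun γ => src γ = v)).card +
      (Finset.univ.filter (fun γ => host γ = v)).card ≤ S v)
    (hSle : ∀ v, S v ≤ s / (m + 1) + 1) (hg : 4 * g ≤ n * (m + 1))
    (hown' : ∀ v, (Finset.univ.filter (fun γ => src γ = v)).card ≤ n)
    (hhst' : ∀ v, (Finset.univ.filter (fun γ => host γ = v)).card ≤ n)
    (htg' : ∀ v, (Finset.univ.filter (fun γ => tgt γ = v)).card ≤ n)
    (he : ∀ v, M + (Finset.univ.filter (fun γ => src γ = v)).card ≤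
      e v + n * S v + s + (Finset.univ.filter (fun γ => tgt γ = v)).card)
    (hA : ∀ v ∈ A, e v = 0)
    (hsum : ∑ v ∈ Finset.univ.filter (fun v => v ∉ A), e v ≤ (m + 1) * M - s * (m + n + 1)) :
    ∃ (R g : ℕ) (comp : Fin R → C) (src tgt host : Fin g → C) (A : Finset C) (e : C → ℕ),
      R + 3 * g = s ∧
      (∀ γ, src γ ∈ A ∧ tgt γ ∉ A ∧ host γ ≠ src γ ∧ host γ ≠ tgt γ) ∧
      (∀ v, (Finset.univ.filter (fun l => comp l = v)).card * (n + 1)
        + ∑ γ, rk (n + 1) (roleOf (src γ) (tgt γ) (host γ) v) + 2 * (n + 1) ^ 2 + 8 ≤ M) ∧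
      (∀ v, ∑ γ, rkb (n + 1) (roleOf (src γ) (tgt γ) (host γ) v) + 4 * (n + 1) ^ 2 ≤ M) ∧
      (∀ v, M - (Finset.univ.filter (fun l => comp l = v)).card * (n + 1)
        - ∑ γ, rk (n + 1) (roleOf (src γ) (tgt γ) (host γ) v)
        - (Finset.univ.filter (fun l => comp l ≠ v)).card ≤ e v) ∧
      (∀ v ∈ A, e v = 0) ∧
      ∑ v ∈ Finset.univ.filter (fun v => v ∉ A), e v ≤ (m + 1) * M - s * (m + n + 1) := by
  obtain ⟨comp, hcomp⟩ := hCFN (C := C) (fun v => S v -
    (2 * (Finset.univ.filter (fun γ => src γ = v)).card +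
      (Finset.univ.filter (fun γ => host γ = v)).card))
  have hfib : ∀ f : Fin g → C, ∑ v, (Finset.univ.filter (fun γ => f γ = v)).card = g := by
    intro f
    have h1 := Finset.card_eq_sum_card_fiberwise (f := f) (s := Finset.univ) (t := Finset.univ)
      (fun x _ => Finset.mem_coe.mpr (Finset.mem_univ _))
    rw [Finset.card_univ, Fintype.card_fin] at h1
    exact h1.symm
  have hR : (∑ v, (S v - (2 * (Finset.univ.filter (fun γ => src γ = v)).card +
      (Finset.univ.filter (fun γ => host γ = v)).card))) + 3 * g = s := by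
    have h2 : ∑ v, ((S v - (2 * (Finset.univ.filter (fun γ => src γ = v)).card +
        (Finset.univ.filter (fun γ => host γ = v)).card)) +
        (2 * (Finset.univ.filter (fun γ => src γ = v)).card +
        (Finset.univ.filter (fun γ => host γ = v)).card)) = s := by
      rw [← hS]
      exact Finset.sum_congr rfl fun v _ => Nat.sub_add_cancel (hb v)
    rw [Finset.sum_add_distrib, Finset.sum_add_distrib, ← Finset.mul_sum, hfib src, hfib host] at h2
    omega
  have hne' : ∀ γ, src γ ≠ tgt γ ∧ host γ ≠ src γ ∧ host γ ≠ tgt γ := fun γ =>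
    ⟨fun h => (hrole γ).2.1 (h ▸ (hrole γ).1), (hrole γ).2.2.1, (hrole γ).2.2.2⟩
  refine ⟨_, g, comp, src, tgt, host, A, e, hR, hrole, ?_, ?_, ?_, hA, hsum⟩
  · intro v
    have hrk := hRKS n g src tgt host v hne'
    have hbv := hb v
    have htgv := htg' v
    have hSv := hSle v
    rw [hcomp v]
    refine le_trans ?_ (hc g hg)
    set own := (Finset.univ.filter (fun γ => src γ = v)).card
    set hst := (Finset.univ.filter (fun γ => host γ = v)).card
    set tg := (Finset.univ.filter (fun γ => tgt γ = v)).card
    set Q := ∑ γ, rk (n + 1) (roleOf (src γ) (tgt γ) (host γ) v)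
    obtain ⟨b, hb'⟩ := Nat.exists_eq_add_of_le hbv
    have hb2 : S v - (2 * own + hst) = b := by omega
    rw [hb2]
    have h5 : S v * (n + 1) ≤ (s / (m + 1) + 1) * (n + 1) := Nat.mul_le_mul_right _ hSv
    have h6 : S v * (n + 1) = b * (n + 1) + 2 * n * own + 2 * own + n * hst + hst := by
      rw [hb']; ring
    omega
  · intro v
    rw [AG2_rkb n g src tgt host v hne']
    have h1 := hown' v
    have h2 := hhst' v
    set own := (Finset.univ.filter (fun γ => src γ = v)).card
    set hst := (Finset.univ.filter (fun γ => host γ = v)).card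
    have h3 : 2 * (n + 1) * own ≤ 2 * (n + 1) * n := Nat.mul_le_mul_left _ h1
    have h4 : (n + 3) * hst ≤ (n + 3) * n := Nat.mul_le_mul_left _ h2
    have h5 : 2 * (n + 1) * n + (n + 3) * n = n * (3 * n + 5) := by ring
    omega
  · intro v
    have hne : (Finset.univ.filter (fun l => comp l ≠ v)).card +
        (Finset.univ.filter (fun l => comp l = v)).card =
        ∑ v, (S v - (2 * (Finset.univ.filter (fun γ => src γ = v)).card +
          (Finset.univ.filter (fun γ => host γ = v)).card)) := by
      have h3 := Finset.card_filter_add_card_filter_not (s := (Finset.univ : Finset (Fin (∑ v, (S v -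
        (2 * (Finset.univ.filter (fun γ => src γ = v)).card +
          (Finset.univ.filter (fun γ => host γ = v)).card)))))) (fun l => comp l = v)
      rw [Finset.card_univ, Fintype.card_fin] at h3
      rw [add_comm]
      exact h3
    have hrk := hRKS n g src tgt host v hne'
    have hev := he v
    have hbv := hb v
    rw [hcomp v] at hne ⊢
    set own := (Finset.univ.filter (fun γ => src γ = v)).card
    set hst := (Finset.univ.filter (fun γ => host γ = v)).card
    set tg := (Finset.univ.filter (fun γ => tgt γ = v)).card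
    set Q := ∑ γ, rk (n + 1) (roleOf (src γ) (tgt γ) (host γ) v)
    set R := ∑ v, (S v - (2 * (Finset.univ.filter (fun γ => src γ = v)).card +
          (Finset.univ.filter (fun γ => host γ = v)).card))
    set N := (Finset.univ.filter (fun l => comp l ≠ v)).card
    obtain ⟨b, hb'⟩ := Nat.exists_eq_add_of_le hbv
    have hb2 : S v - (2 * own + hst) = b := by omega
    rw [hb2] at hne ⊢
    have h5 : n * S v = n * (2 * own) + n * hst + n * b := by rw [hb']; ring
    have h6 : 2 * n * own = n * (2 * own) := by ring
    rw [h6] at hrk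
    have h7 : b * (n + 1) = n * b + b := by ring
    rw [h7]
    omega

theorem AG2 (hAN2 : AN2_stmt) (hHS2 : HS2_stmt) (hTRN : TRN_stmt) (hCFN : CFN_stmt)
    (hRKS : RKS_stmt) : AG2_stmt := by
  intro C _ _ m n M s hC hm hn hT hs
  obtain ⟨ha1, ha2, hb, hc, hd⟩ := hAN2 m n M s hm hn hT hs
  set σ := s / (m + 1) with hσ
  set ν := s % (m + 1) with hν
  have hsσ : (m + 1) * σ + ν = s := Nat.div_add_mod s (m + 1)
  have hνm : ν ≤ m := Nat.lt_succ_iff.mp (Nat.mod_lt s (Nat.succ_pos m))
  obtain ⟨A₀, -, hA₀⟩ := Finset.exists_subset_card_eq (s := (Finset.univ : Finset C)) (n := ν)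
    (by rw [Finset.card_univ, hC]; omega)
  set S : C → ℕ := fun v => if v ∈ A₀ then σ + 1 else σ with hSdef
  have hSle : ∀ v, S v ≤ σ + 1 := by
    intro v
    simp only [hSdef]
    split_ifs <;> omega
  have hSge : ∀ v, σ ≤ S v := by
    intro v
    simp only [hSdef]
    split_ifs <;> omega
  have hnot : (Finset.univ.filter (fun v => v ∉ A₀)).card = m + 1 - ν := by
    have h1 : Finset.univ.filter (fun v => v ∉ A₀) = A₀ᶜ := by
      ext v
      simp
    rw [h1, Finset.card_compl, hC, hA₀]
  have hS : ∑ v, S v = s := by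
    have h1 : ∀ v, S v = σ + if v ∈ A₀ then 1 else 0 := by
      intro v
      simp only [hSdef]
      split_ifs <;> rfl
    rw [Finset.sum_congr rfl fun v _ => h1 v, Finset.sum_add_distrib, Finset.sum_const,
      Finset.card_univ, hC, Finset.sum_ite_mem, Finset.univ_inter, Finset.sum_const, hA₀]
    simp only [smul_eq_mul, mul_one]
    exact hsσ
  have hempty : ∀ (f : Fin 0 → C) (v : C), (Finset.univ.filter (fun γ => f γ = v)).card = 0 := by
    intro f v
    rw [Finset.card_eq_zero, Finset.filter_eq_empty_iff]
    intro γ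
    exact γ.elim0
  by_cases hx : M ≤ s + n * σ
  · -- x ≤ 0
    apply AG2_core hCFN hRKS m n M s hc hd ∅ (fun _ => 0) S 0 (fun γ => γ.elim0) (fun γ => γ.elim0)
      (fun γ => γ.elim0) (fun γ => γ.elim0) hS _ hSle (by omega) (fun v => by simp only [hempty]; omega)
      (fun v => by simp only [hempty]; omega) (fun v => by simp only [hempty]; omega)
      _ (fun v _ => rfl) (by simp)
    · intro v
      simp only [hempty]
      omega
    · intro v
      simp only [hempty]
      have h1 : n * σ ≤ n * S v := Nat.mul_le_mul_left n (hSge v)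
      omega
  push Not at hx
  obtain ⟨X, hX⟩ := Nat.exists_eq_add_of_lt hx
  -- M = s + n σ + X + 1
  set x := X + 1 with hxdef
  have hM : M = x + s + n * σ := by omega
  have hkey : (m + 1) * x + s * (m + n + 1) = (m + 1) * M + n * ν := by
    rw [hM, ← hsσ]
    ring
  by_cases hcase : n ≤ x ∨ ν = 0
  · apply AG2_core hCFN hRKS m n M s hc hd ∅ (fun v => if v ∈ A₀ then x - n else x) S 0
      (fun γ => γ.elim0) (fun γ => γ.elim0)
      (fun γ => γ.elim0) (fun γ => γ.elim0) hS _ hSle (by omega)
      (fun v => by simp only [hempty]; omega)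
      (fun v => by simp only [hempty]; omega) (fun v => by simp only [hempty]; omega)
      _ (fun v hv => by simp at hv) _
    · intro v
      simp only [hempty]
      omega
    · intro v
      simp only [hempty]
      by_cases hv : v ∈ A₀
      · have hnx : n ≤ x := by
          rcases hcase with h | h
          · exact h
          · rw [← hA₀, Finset.card_eq_zero] at h
            rw [h] at hv
            simp at hv
        have h1 : S v = σ + 1 := by simp only [hSdef, if_pos hv]
        rw [if_pos hv, h1, mul_add]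
        omega
      · have h1 : S v = σ := by simp only [hSdef, if_neg hv]
        rw [if_neg hv, h1]
        omega
    · have h1 : Finset.univ.filter (fun v : C => v ∉ (∅ : Finset C)) = Finset.univ := by
        simp
      rw [h1]
      have h2 : ∑ v : C, (if v ∈ A₀ then x - n else x) = ν * (x - n) + (m + 1 - ν) * x := by
        rw [← Finset.sum_filter_add_sum_filter_not Finset.univ (fun v => v ∈ A₀)]
        have h3 : ∑ v ∈ Finset.univ.filter (fun v => v ∈ A₀), (if v ∈ A₀ then x - n else x) =
            ν * (x - n) := by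
          rw [Finset.sum_congr rfl (fun v hv => if_pos (Finset.mem_filter.mp hv).2),
            Finset.sum_const, smul_eq_mul]
          congr 1
          rw [← hA₀]
          congr 1
          ext v
          simp
        have h4 : ∑ v ∈ Finset.univ.filter (fun v => v ∉ A₀), (if v ∈ A₀ then x - n else x) =
            (m + 1 - ν) * x := by
          rw [Finset.sum_congr rfl (fun v hv => if_neg (Finset.mem_filter.mp hv).2),
            Finset.sum_const, smul_eq_mul, hnot]
        rw [h3, h4]
      rw [h2]
      apply Nat.le_sub_of_add_le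
      obtain ⟨μ, hμ⟩ := Nat.exists_eq_add_of_le (show ν ≤ m + 1 by omega)
      have hμ2 : m + 1 - ν = μ := by omega
      rw [hμ2]
      rcases hcase with h | h
      · obtain ⟨y, hy⟩ := Nat.exists_eq_add_of_le h
        have hy2 : x - n = y := by omega
        rw [hy2]
        have e1 : (m + 1) * x = ν * y + μ * x + ν * n := by
          rw [hμ, hy]
          ring
        have e2 : ν * n = n * ν := mul_comm _ _
        omega
      · rw [h] at hμ ⊢
        have e1 : (m + 1) * x = μ * x := by rw [hμ]; ring
        rw [h] at hkey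
        simp only [mul_zero, zero_mul, add_zero, zero_add] at hkey ⊢
        omega
  push Not at hcase
  obtain ⟨hxn, hν0⟩ := hcase
  obtain ⟨μ, hμ⟩ := Nat.exists_eq_add_of_le (show ν ≤ m + 1 by omega)
  obtain ⟨p, hp⟩ := Nat.exists_eq_add_of_le hxn.le
  -- n = x + p
  have hp1 : 1 ≤ p := by omega
  have hcard2 : 2 ≤ A₀.card ∨ 2 ≤ A₀ᶜ.card := by
    rw [Finset.card_compl, hC, hA₀]
    omega
  have hαc : Fintype.card {v // v ∈ A₀} = ν := by rw [Fintype.card_coe, hA₀]
  have hβc : Fintype.card {v // v ∉ A₀} = μ := by
    rw [Fintype.card_subtype, hnot]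
    omega
  have hkey2 : ν * x + μ * x + s * (m + n + 1) = (m + 1) * M + ν * x + ν * p := by
    have e1 : (m + 1) * x = ν * x + μ * x := by rw [hμ]; ring
    have e2 : n * ν = ν * x + ν * p := by rw [hp]; ring
    rw [e1, e2] at hkey
    omega
  have hsq : 4 * (ν * μ) ≤ (m + 1) * (m + 1) := by
    rw [hμ]
    nlinarith [sq_nonneg ((ν : ℤ) - μ), sq_nonneg ((ν : ℤ) + μ), Nat.zero_le ν,
      (by have := sq_nonneg ((ν : ℤ) - μ); nlinarith : (4 : ℤ) * (ν * μ) ≤ (ν + μ) * (ν + μ))]
  have hgen : ∀ g : ℕ, (m + 1) * g ≤ n * (ν * μ) → 4 * g ≤ n * (m + 1) := by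
    intro g hg
    have e1 : (m + 1) * (4 * g) ≤ (m + 1) * (n * (m + 1)) := by
      calc (m + 1) * (4 * g) = 4 * ((m + 1) * g) := by ring
        _ ≤ 4 * (n * (ν * μ)) := Nat.mul_le_mul_left 4 hg
        _ = n * (4 * (ν * μ)) := by ring
        _ ≤ n * ((m + 1) * (m + 1)) := Nat.mul_le_mul_left n hsq
        _ = (m + 1) * (n * (m + 1)) := by ring
    exact Nat.le_of_mul_le_mul_left e1 (Nat.succ_pos m)
  by_cases hδ : s * (m + n + 1) ≤ (m + 1) * M
  · -- Case 2
    have hle : ν * p ≤ μ * x := by omega
    obtain ⟨g, sA, tB, hgdef, hsA, htB⟩ : ∃ (g : ℕ) (sA : Fin g → {v // v ∈ A₀})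
        (tB : Fin g → {v // v ∉ A₀}), g = ν * p ∧
        (∀ a, (Finset.univ.filter (fun γ => sA γ = a)).card = p) ∧
        ∀ b, (Finset.univ.filter (fun γ => tB γ = b)).card ≤ x := by
      obtain ⟨sA, tB, hsA, htB⟩ := hTRN (α := {v // v ∈ A₀}) (β := {v // v ∉ A₀}) p x
        (by rw [hαc, hβc]; exact hle)
      exact ⟨_, sA, tB, by rw [hαc], hsA, htB⟩
    have hown : ∀ v, (Finset.univ.filter (fun γ => ((sA γ : {v // v ∈ A₀}) : C) = v)).card =
        if v ∈ A₀ then p else 0 := by
      intro v
      split_ifs with hv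
      · refine Eq.trans ?_ (hsA ⟨v, hv⟩)
        congr 1
        ext γ
        simp only [Finset.mem_filter, Finset.mem_univ, true_and, Subtype.ext_iff]
      · rw [Finset.card_eq_zero, Finset.filter_eq_empty_iff]
        intro γ _ hγ
        exact hv (hγ ▸ (sA γ).2)
    have htgle : ∀ v, (Finset.univ.filter (fun γ => ((tB γ : {v // v ∉ A₀}) : C) = v)).card ≤ x := by
      intro v
      by_cases hv : v ∈ A₀
      · have : (Finset.univ.filter (fun γ => ((tB γ : {v // v ∉ A₀}) : C) = v)).card = 0 := by
          rw [Finset.card_eq_zero, Finset.filter_eq_empty_iff]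
          intro γ _ hγ
          exact (tB γ).2 (hγ ▸ hv)
        omega
      · refine le_trans (le_of_eq ?_) (htB ⟨v, hv⟩)
        congr 1
        ext γ
        simp only [Finset.mem_filter, Finset.mem_univ, true_and, Subtype.ext_iff]
    have hownle : ∀ v, (Finset.univ.filter (fun γ => ((sA γ : {v // v ∈ A₀}) : C) = v)).card ≤ p := by
      intro v
      rw [hown]
      split_ifs <;> omega
    obtain ⟨host, hh1, hh2⟩ := hHS2 A₀ hcard2 _ p x (fun γ => (sA γ : C))
      (fun γ => (tB γ : C)) (fun γ => (sA γ).2) (fun γ => (tB γ).2) hownle htgle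
    have hh3 : ∀ v, (Finset.univ.filter (fun γ => host γ = v)).card ≤ p ∨
        (Finset.univ.filter (fun γ => host γ = v)).card ≤ x := by
      intro v
      rcases hh2 with h | h
      · left
        refine (h v).trans ?_
        split_ifs <;> omega
      · right
        refine (h v).trans ?_
        split_ifs <;> omega
    have hg4 : 4 * g ≤ n * (m + 1) := by
      apply hgen
      rw [hgdef]
      have e1 : (m + 1) * (ν * p) = ν * ((m + 1) * p) := by ring
      have e2 : (m + 1) * p ≤ n * μ := by
        have e3 : (m + 1) * p = ν * p + μ * p := by rw [hμ]; ring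
        have e4 : n * μ = μ * x + μ * p := by rw [hp]; ring
        omega
      rw [e1]
      calc ν * ((m + 1) * p) ≤ ν * (n * μ) := Nat.mul_le_mul_left ν e2
        _ = n * (ν * μ) := by ring
    apply AG2_core hCFN hRKS m n M s hc hd A₀ (fun v => if v ∈ A₀ then 0 else
      x - (Finset.univ.filter (fun γ => ((tB γ : {v // v ∉ A₀}) : C) = v)).card) S _
      (fun γ => (sA γ : C)) (fun γ => (tB γ : C)) host
      (fun γ => ⟨(sA γ).2, (tB γ).2, (hh1 γ).1, (hh1 γ).2⟩) hS _ hSle hg4
      (fun v => (hownle v).trans (by omega)) (fun v => by rcases hh3 v with h | h <;> omega)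
      (fun v => (htgle v).trans (by omega)) _
      (fun v hv => if_pos hv) _
    · intro v
      by_cases hv : v ∈ A₀
      · have e1 := hownle v
        have h1 : S v = σ + 1 := by simp only [hSdef, if_pos hv]
        rcases hh2 with h | h
        · have e2 := h v
          rw [if_pos hv] at e2
          omega
        · have e2 := h v
          rw [if_pos hv] at e2
          omega
      · have e1 := hown v
        rw [if_neg hv] at e1
        have h1 : S v = σ := by simp only [hSdef, if_neg hv]
        rcases hh2 with h | h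
        · have e2 := h v
          rw [if_neg hv] at e2
          omega
        · have e2 := h v
          rw [if_neg hv] at e2
          omega
    · intro v
      have e5 := htgle v
      by_cases hv : v ∈ A₀
      · have h1 : S v = σ + 1 := by simp only [hSdef, if_pos hv]
        rw [if_pos hv, h1, mul_add, hown, if_pos hv]
        omega
      · have h1 : S v = σ := by simp only [hSdef, if_neg hv]
        rw [if_neg hv, h1, hown, if_neg hv]
        omega
    · have h2 : ∑ v ∈ Finset.univ.filter (fun v => v ∉ A₀), ((if v ∈ A₀ then 0 else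
          x - (Finset.univ.filter (fun γ => ((tB γ : {v // v ∉ A₀}) : C) = v)).card) +
          (Finset.univ.filter (fun γ => ((tB γ : {v // v ∉ A₀}) : C) = v)).card) = μ * x := by
        have h3 : ∀ v ∈ Finset.univ.filter (fun v => v ∉ A₀), ((if v ∈ A₀ then 0 else
            x - (Finset.univ.filter (fun γ => ((tB γ : {v // v ∉ A₀}) : C) = v)).card) +
            (Finset.univ.filter (fun γ => ((tB γ : {v // v ∉ A₀}) : C) = v)).card) = x := by
          intro v hv
          rw [if_neg (Finset.mem_filter.mp hv).2]
          exact Nat.sub_add_cancel (htgle v)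
        rw [Finset.sum_congr rfl h3, Finset.sum_const, smul_eq_mul, hnot]
        congr 1
        omega
      rw [Finset.sum_add_distrib] at h2
      have h4 := Finset.card_eq_sum_card_fiberwise (f := fun γ => (tB γ : C)) (s := Finset.univ)
        (t := Finset.univ.filter (fun v => v ∉ A₀)) (fun γ _ => by
          simp only [Finset.coe_filter, Finset.mem_univ, true_and, Set.mem_ofPred_eq]
          exact (tB γ).2)
      rw [Finset.card_univ, Fintype.card_fin] at h4
      rw [← h4] at h2
      omega
  · -- Case 4
    push Not at hδ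
    have hle : μ * x ≤ ν * p := by omega
    obtain ⟨g, sB, tA, hgdef, hsB, htA⟩ : ∃ (g : ℕ) (sB : Fin g → {v // v ∉ A₀})
        (tA : Fin g → {v // v ∈ A₀}), g = μ * x ∧
        (∀ a, (Finset.univ.filter (fun γ => sB γ = a)).card = x) ∧
        ∀ b, (Finset.univ.filter (fun γ => tA γ = b)).card ≤ p := by
      obtain ⟨sB, tA, hsB, htA⟩ := hTRN (α := {v // v ∉ A₀}) (β := {v // v ∈ A₀}) x p
        (by rw [hαc, hβc]; exact hle)
      exact ⟨_, sB, tA, by rw [hβc], hsB, htA⟩
    have htg : ∀ v, (Finset.univ.filter (fun γ => ((sB γ : {v // v ∉ A₀}) : C) = v)).card =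
        if v ∈ A₀ then 0 else x := by
      intro v
      split_ifs with hv
      · rw [Finset.card_eq_zero, Finset.filter_eq_empty_iff]
        intro γ _ hγ
        exact (sB γ).2 (hγ ▸ hv)
      · refine Eq.trans ?_ (hsB ⟨v, hv⟩)
        congr 1
        ext γ
        simp only [Finset.mem_filter, Finset.mem_univ, true_and, Subtype.ext_iff]
    have hownle : ∀ v, (Finset.univ.filter (fun γ => ((tA γ : {v // v ∈ A₀}) : C) = v)).card ≤ p := by
      intro v
      by_cases hv : v ∈ A₀
      · refine le_trans (le_of_eq ?_) (htA ⟨v, hv⟩)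
        congr 1
        ext γ
        simp only [Finset.mem_filter, Finset.mem_univ, true_and, Subtype.ext_iff]
      · have : (Finset.univ.filter (fun γ => ((tA γ : {v // v ∈ A₀}) : C) = v)).card = 0 := by
          rw [Finset.card_eq_zero, Finset.filter_eq_empty_iff]
          intro γ _ hγ
          exact hv (hγ ▸ (tA γ).2)
        omega
    have hown0 : ∀ v, v ∉ A₀ →
        (Finset.univ.filter (fun γ => ((tA γ : {v // v ∈ A₀}) : C) = v)).card = 0 := by
      intro v hv
      rw [Finset.card_eq_zero, Finset.filter_eq_empty_iff]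
      intro γ _ hγ
      exact hv (hγ ▸ (tA γ).2)
    have htgle : ∀ v, (Finset.univ.filter (fun γ => ((sB γ : {v // v ∉ A₀}) : C) = v)).card ≤ x := by
      intro v
      rw [htg]
      split_ifs <;> omega
    obtain ⟨host, hh1, hh2⟩ := hHS2 A₀ hcard2 _ p x (fun γ => (tA γ : C))
      (fun γ => (sB γ : C)) (fun γ => (tA γ).2) (fun γ => (sB γ).2) hownle htgle
    have hh3 : ∀ v, (Finset.univ.filter (fun γ => host γ = v)).card ≤ p ∨
        (Finset.univ.filter (fun γ => host γ = v)).card ≤ x := by
      intro v
      rcases hh2 with h | h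
      · left
        refine (h v).trans ?_
        split_ifs <;> omega
      · right
        refine (h v).trans ?_
        split_ifs <;> omega
    have hg4 : 4 * g ≤ n * (m + 1) := by
      apply hgen
      rw [hgdef]
      have e1 : (m + 1) * (μ * x) = μ * ((m + 1) * x) := by ring
      have e2 : (m + 1) * x ≤ n * ν := by
        have e3 : (m + 1) * x = ν * x + μ * x := by rw [hμ]; ring
        have e4 : n * ν = ν * x + ν * p := by rw [hp]; ring
        omega
      rw [e1]
      calc μ * ((m + 1) * x) ≤ μ * (n * ν) := Nat.mul_le_mul_left μ e2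
        _ = n * (ν * μ) := by ring
    apply AG2_core hCFN hRKS m n M s hc hd A₀ (fun _ => 0) S _
      (fun γ => (tA γ : C)) (fun γ => (sB γ : C)) host
      (fun γ => ⟨(tA γ).2, (sB γ).2, (hh1 γ).1, (hh1 γ).2⟩) hS _ hSle hg4
      (fun v => (hownle v).trans (by omega)) (fun v => by rcases hh3 v with h | h <;> omega)
      (fun v => (htgle v).trans (by omega)) _
      (fun v _ => rfl) (by simp)
    · intro v
      by_cases hv : v ∈ A₀
      · have e1 := hownle v
        have h1 : S v = σ + 1 := by simp only [hSdef, if_pos hv]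
        rcases hh2 with h | h
        · have e2 := h v
          rw [if_pos hv] at e2
          omega
        · have e2 := h v
          rw [if_pos hv] at e2
          omega
      · have e1 := hown0 v hv
        have h1 : S v = σ := by simp only [hSdef, if_neg hv]
        rcases hh2 with h | h
        · have e2 := h v
          rw [if_neg hv] at e2
          omega
        · have e2 := h v
          rw [if_neg hv] at e2
          omega
    · intro v
      have e5 := hownle v
      by_cases hv : v ∈ A₀
      · have h1 : S v = σ + 1 := by simp only [hSdef, if_pos hv]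
        rw [h1, mul_add, htg, if_pos hv]
        omega
      · have h1 : S v = σ := by simp only [hSdef, if_neg hv]
        rw [h1, htg, if_neg hv, hown0 v hv]
        omega

end Pool.Agent.SG
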