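import Pool.Agent.helper17.SG.SpecR

set_option autoImplicit false

open MeasureTheory Set Metric Filter Topology
open scoped ENNReal NNReal ComplexConjugate

namespace Pool.Agent.SG

theorem R02_min {Γ : Type} [Group Γ] (A : DiscRep Γ) (W : Walk Γ) (hB03 : B03_stmt)
    (hP01 : P01_stmt) (hP04 : P04_stmt) (T : Finset Γ) :
    ∃ k h : ℝ, 0 < k ∧ 0 < h ∧ ∀ t ∈ T, k ≤ A.kk t ∧ ENNReal.ofReal h ≤ W.hit 1 t := by
  classical
  induction T using Finset.induction_on with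
  | empty => exact ⟨1, 1, one_pos, one_pos, by simp⟩
  | insert a T ha ih =>
    obtain ⟨k, h, hk, hh, hT⟩ := ih
    have hka : 0 < A.kk a := ((hB03 Γ A).1 a).1
    have hle : W.hit 1 a ≤ 1 := (hP01 Γ W).2.1 1 a
    have hfin : W.hit 1 a ≠ ⊤ := ne_top_of_le_ne_top ENNReal.one_ne_top hle
    have hpos : 0 < (W.hit 1 a).toReal := ENNReal.toReal_pos (hP04 Γ W 1 a) hfin
    refine ⟨min k (A.kk a), min h (W.hit 1 a).toReal, lt_min hk hka, lt_min hh hpos, ?_⟩
    intro t ht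
    rcases Finset.mem_insert.1 ht with rfl | ht
    · refine ⟨min_le_right _ _, ?_⟩
      refine (ENNReal.ofReal_le_ofReal (min_le_right _ _)).trans ?_
      rw [ENNReal.ofReal_toReal hfin]
    · exact ⟨(min_le_left _ _).trans (hT t ht).1,
        (ENNReal.ofReal_le_ofReal (min_le_left _ _)).trans (hT t ht).2⟩

/-- Geometry of `v = w t u`. -/
theorem R02_geo {Γ : Type} [Group Γ] (A : DiscRep Γ) (hB03 : B03_stmt) (c₀ k₀ : ℝ) (hc₀ : 0 < c₀)
    (hk₀ : 0 < k₀) (w t u : Γ) (hkt : k₀ ≤ A.kk t)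
    (ht : c₀ ≤ ‖1 - conj (A.pt w⁻¹) * A.act t (A.pt u)‖) :
    A.kk (w * (t * u)) ≤ 4 / (c₀ ^ 2 * k₀) * A.kk w * A.kk u ∧
    k₀ / 16 * A.kk w * A.kk u ≤ A.kk (w * (t * u)) ∧
    ‖A.pt (w * (t * u)) - A.pt w‖ ≤ A.kk w / c₀ := by
  obtain ⟨h1, _, _, h4, _, h6, h7, _, h9, _, h11, h12⟩ := hB03 Γ A
  rw [← h6] at ht
  have hw := (h1 w).1
  have hu := (h1 u).1
  have htk := (h1 t).1
  have hd := (h1 (t * u)).1
  have hv := (h1 (w * (t * u))).1
  refine ⟨?_, ?_, ?_⟩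
  · have e1 := h7 w (t * u)
    have e2 : A.kk (w * (t * u)) * c₀ ^ 2 ≤ A.kk w * A.kk (t * u) := by
      rw [← e1]
      exact mul_le_mul_of_nonneg_left (pow_le_pow_left₀ hc₀.le ht 2) hv.le
    have e3 := h11 t u
    have e4 : A.kk (t * u) * k₀ ≤ 4 * A.kk u :=
      (mul_le_mul_of_nonneg_left hkt hd.le).trans e3
    have e5 : A.kk (w * (t * u)) * (c₀ ^ 2 * k₀) ≤ 4 * A.kk w * A.kk u := by
      calc A.kk (w * (t * u)) * (c₀ ^ 2 * k₀) = (A.kk (w * (t * u)) * c₀ ^ 2) * k₀ := by ring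
        _ ≤ (A.kk w * A.kk (t * u)) * k₀ := mul_le_mul_of_nonneg_right e2 hk₀.le
        _ = A.kk w * (A.kk (t * u) * k₀) := by ring
        _ ≤ A.kk w * (4 * A.kk u) := mul_le_mul_of_nonneg_left e4 hw.le
        _ = _ := by ring
    have hpos : 0 < c₀ ^ 2 * k₀ := by positivity
    calc A.kk (w * (t * u)) ≤ (4 * A.kk w * A.kk u) / (c₀ ^ 2 * k₀) := (le_div_iff₀ hpos).2 e5
      _ = _ := by ring
  · have e1 := h9 w (t * u)
    have e2 := h9 t u
    have e3 : k₀ * A.kk u ≤ A.kk t * A.kk u := mul_le_mul_of_nonneg_right hkt hu.le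
    have e4 : A.kk w * (k₀ * A.kk u) ≤ A.kk w * (4 * A.kk (t * u)) :=
      mul_le_mul_of_nonneg_left (e3.trans e2) hw.le
    nlinarith
  · have e1 := h12 w (t * u)
    have e2 : ‖A.pt (w * (t * u)) - A.pt w‖ * c₀ ≤ A.kk w * 1 := by
      calc ‖A.pt (w * (t * u)) - A.pt w‖ * c₀
          ≤ ‖A.pt (w * (t * u)) - A.pt w‖ * ‖1 - conj (A.pt w⁻¹) * A.pt (t * u)‖ :=
            mul_le_mul_of_nonneg_left ht (norm_nonneg _)
        _ = A.kk w * ‖A.pt (t * u)‖ := e1
        _ ≤ A.kk w * 1 := mul_le_mul_of_nonneg_left (h4 _).le hw.le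
    rw [mul_one] at e2
    exact (le_div_iff₀ hc₀).2 e2

theorem R02 (hB01 : B01_stmt) (hB03 : B03_stmt) (hB05 : B05_stmt) (hB13 : B13_stmt)
    (hB15 : B15_stmt) (hM01 : M01_stmt) (hM02 : M02_stmt) (hM12 : M12_stmt) (hP01 : P01_stmt)
    (hP03 : P03_stmt) (hP04 : P04_stmt) (hR01 : R01_stmt) : R02_stmt := by
  intro Γ _ A W ν hS hac c hc
  obtain ⟨T₀, c₀, hc₀, hT⟩ := hB13 Γ A hS.nonel
  obtain ⟨k₀, h₀, hk₀, hh₀, hT2⟩ := R02_min A W hB03 hP01 hP04 T₀
  have := hS.prob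
  obtain ⟨hlamP, hlamc, _, hlam2, _⟩ := hB05
  have := hlamP
  have hlam : lam ≪ ν := hM12 Γ A W ν hS hac
  obtain ⟨⟨c₁, hc₁, A₁, hA₁m, hA₁, hA₁E⟩, _⟩ :=
    hR01 lam ν hac hlam (ENNReal.ofReal (1 / 16)) (by simp)
  set C₂ : ℝ := 4 / (c₀ ^ 2 * k₀) with hC₂
  have hC₂pos : 0 < C₂ := by positivity
  obtain ⟨b1, _, b3, _, _, b6, b7, b8, _, _⟩ := hB01 Γ A
  obtain ⟨k1, _, _, k4, _, _, _, _, _, _, _, _⟩ := hB03 Γ A
  obtain ⟨m1, m2, m3, m4, m5, _⟩ := hM01 Γ A W ν hS.toStat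
  have hcircm : MeasurableSet circ := isClosed_sphere.measurableSet
  refine ⟨1 + 2 * C₂ + 1 / c₀, ?_, c₁ * c * h₀ / (4 * C₂), by positivity, fun u =>
    ⟨k₀ * A.kk u / 256, ?_, fun w hw => ?_⟩⟩
  · have : 0 < 1 / c₀ := by positivity
    linarith
  · have := (k1 u).1
    positivity
  obtain ⟨t, htT, ht⟩ := hT (A.pt w⁻¹) (A.pt u) (k4 _).le (k4 _).le
  obtain ⟨hkt, hht⟩ := hT2 t htT
  obtain ⟨g1, g2, g3⟩ := R02_geo A hB03 c₀ k₀ hc₀ hk₀ w t u hkt ht
  set v : Γ := w * (t * u) with hv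
  have hwk := (k1 w).1
  have huk := (k1 u).1
  have huk1 := (k1 u).2
  have hvk := (k1 v).1
  set J : Set ℂ := {ξ | 1 / 2 ≤ ‖ξ - A.pt v⁻¹‖} with hJ
  have hJc : Jᶜ ⊆ closedBall (A.pt v⁻¹) (1 / 2) := by
    intro ξ hξ
    rw [mem_closedBall, dist_eq_norm]
    by_contra hcon
    exact hξ (not_le.1 hcon).le
  have hJm : MeasurableSet J := by
    have : IsClosed J := isClosed_le continuous_const (by fun_prop)
    exact this.measurableSet
  set B : Set ℂ := circ ∩ (A₁ ∩ J) with hB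
  have hBm : MeasurableSet B := hcircm.inter (hA₁m.inter hJm)
  have hBc : B ⊆ circ := Set.inter_subset_left
  have hBA : B ⊆ A₁ := fun x hx => hx.2.1
  have hBJ : ∀ ξ ∈ B, 1 / 2 ≤ ‖ξ - A.pt v⁻¹‖ := fun x hx => hx.2.2
  have hBlam : ENNReal.ofReal (1 / 4) ≤ lam B := by
    have h1 : lam Bᶜ ≤ ENNReal.ofReal (9 / 16) := by
      calc lam Bᶜ ≤ lam (circᶜ ∪ (A₁ᶜ ∪ Jᶜ)) := by
            apply measure_mono
            intro x hx
            by_contra hcon
            simp only [Set.mem_union, Set.mem_compl_iff, not_or, not_not] at hcon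
            exact hx ⟨hcon.1, hcon.2.1, hcon.2.2⟩
        _ ≤ lam circᶜ + (lam A₁ᶜ + lam Jᶜ) :=
            (measure_union_le _ _).trans (add_le_add le_rfl (measure_union_le _ _))
        _ ≤ 0 + (ENNReal.ofReal (1 / 16) + ENNReal.ofReal (1 / 2)) := by
            refine add_le_add hlamc.le (add_le_add hA₁ ?_)
            exact (measure_mono hJc).trans (hlam2 _ _ (by norm_num))
        _ = ENNReal.ofReal (9 / 16) := by
            rw [zero_add, ← ENNReal.ofReal_add (by norm_num) (by norm_num)]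
            norm_num
    have h2 : lam B + lam Bᶜ = 1 := by
      rw [measure_add_measure_compl hBm, measure_univ]
    by_contra hcon
    have h3 : lam B + lam Bᶜ < 1 := by
      calc lam B + lam Bᶜ < ENNReal.ofReal (1 / 4) + ENNReal.ofReal (9 / 16) :=
            ENNReal.add_lt_add_of_lt_of_le
              (ne_top_of_le_ne_top ENNReal.ofReal_ne_top h1) (not_le.1 hcon) h1
        _ = ENNReal.ofReal (13 / 16) := by
            rw [← ENNReal.ofReal_add (by norm_num) (by norm_num)]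
            norm_num
        _ ≤ ENNReal.ofReal 1 := ENNReal.ofReal_le_ofReal (by norm_num)
        _ = 1 := ENNReal.ofReal_one
    exact absurd h2 h3.ne
  set S : Set ℂ := circ ∩ A.act v⁻¹ ⁻¹' B with hSdef
  have hSm : MeasurableSet S := hcircm.inter ((b8 v⁻¹) hBm)
  have hb15 := hB15 Γ A v B hBm hBc
  have hSlam : lam (A.act v⁻¹ ⁻¹' B) ≤ lam S := by
    calc lam (A.act v⁻¹ ⁻¹' B) ≤ lam (S ∪ circᶜ) := by
          apply measure_mono
          intro x hx
          by_cases hxc : x ∈ circ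
          · exact Or.inl ⟨hxc, hx⟩
          · exact Or.inr hxc
      _ ≤ lam S + lam circᶜ := measure_union_le _ _
      _ = lam S := by rw [hlamc, add_zero]
  refine ⟨S, hSm, ?_, ?_, ?_⟩
  · intro ξ hξ
    have h1 := (hb15.2 (1 / 2) (by norm_num) hBJ).2 ξ hξ.1 hξ.2
    rw [mem_closedBall, dist_eq_norm]
    have h2 : ‖ξ - A.pt w‖ ≤ ‖ξ - A.pt v‖ + ‖A.pt v - A.pt w‖ := by
      calc ‖ξ - A.pt w‖ = ‖(ξ - A.pt v) + (A.pt v - A.pt w)‖ := by congr 1; ring
        _ ≤ _ := norm_add_le _ _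
    have h3 : C₂ * A.kk w * A.kk u ≤ C₂ * A.kk w * 1 :=
      mul_le_mul_of_nonneg_left huk1 (by positivity)
    have h4 : A.kk v / (1 / 2) = 2 * A.kk v := by ring
    rw [h4] at h1
    calc ‖ξ - A.pt w‖ ≤ 2 * (C₂ * A.kk w) + A.kk w / c₀ := by linarith
      _ = (2 * C₂ + 1 / c₀) * A.kk w := by ring
      _ ≤ (1 + 2 * C₂ + 1 / c₀) * A.kk w := mul_le_mul_of_nonneg_right (by linarith) hwk.le
  · calc ENNReal.ofReal (k₀ * A.kk u / 256 * A.kk w) ≤ ENNReal.ofReal (A.kk v / 4 * (1 / 4)) := by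
          apply ENNReal.ofReal_le_ofReal
          have : k₀ * A.kk u / 256 * A.kk w = k₀ / 16 * A.kk w * A.kk u / 16 := by ring
          rw [this]
          linarith
      _ = ENNReal.ofReal (A.kk v / 4) * ENNReal.ofReal (1 / 4) :=
          ENNReal.ofReal_mul (by positivity)
      _ ≤ ENNReal.ofReal (A.kk v / 4) * lam B := mul_le_mul_right hBlam _
      _ ≤ lam (A.act v⁻¹ ⁻¹' B) := hb15.1
      _ ≤ lam S := hSlam
  · intro E hEm hES
    set E' : Set ℂ := circ ∩ A.act v ⁻¹' E with hE'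
    have hE'm : MeasurableSet E' := hcircm.inter ((b8 v) hEm)
    have hE'B : E' ⊆ B := by
      intro ξ hξ
      have h1 : ‖ξ‖ = 1 := by
        have := hξ.1
        rwa [circ, mem_sphere_zero_iff_norm] at this
      have h2 := (hES hξ.2).2
      rw [Set.mem_preimage, b6 v ξ h1.le] at h2
      exact h2
    have hEsub : E ⊆ A.act v⁻¹ ⁻¹' E' := by
      intro η hη
      have h0 := (hES hη).1
      have h1 : ‖η‖ = 1 := by rwa [circ, mem_sphere_zero_iff_norm] at h0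
      refine ⟨?_, ?_⟩
      · rw [circ, mem_sphere_zero_iff_norm]
        exact b3 v⁻¹ η h1
      · rw [Set.mem_preimage, b7 v η h1.le]
        exact hη
    have hlamE : lam E ≤ ENNReal.ofReal (4 * A.kk v) * lam E' := by
      have h1 := ((hB15 Γ A v E' hE'm Set.inter_subset_left).2 (1 / 2) (by norm_num)
        (fun ξ hξ => hBJ ξ (hE'B hξ))).1
      have h2 : A.kk v / (1 / 2) ^ 2 = 4 * A.kk v := by ring
      rw [h2] at h1
      exact (measure_mono hEsub).trans h1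
    have hνE : W.hit 1 v * (ENNReal.ofReal c₁ * lam E') ≤ ν E := by
      calc W.hit 1 v * (ENNReal.ofReal c₁ * lam E') ≤ W.hit 1 v * ν E' :=
            mul_le_mul_right (hA₁E E' hE'm (hE'B.trans hBA)) _
        _ ≤ W.hit 1 v * ν (A.act v ⁻¹' E) := mul_le_mul_right (measure_mono Set.inter_subset_right) _
        _ = W.hit 1 v * nux A ν v E := by rw [m5 v E hEm]
        _ ≤ nux A ν 1 E := hM02 Γ A W ν hS.toStat 1 v E hEm
        _ = ν E := by rw [m3]
    have hhit : ENNReal.ofReal (c * A.kk w) * ENNReal.ofReal h₀ * W.hit 1 u ≤ W.hit 1 v := by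
      have e1 : W.hit w (w * t) = W.hit 1 t := by
        have := (hP01 Γ W).2.2.2.2 w 1 t
        rwa [mul_one] at this
      have e2 : W.hit (w * t) v = W.hit 1 u := by
        have := (hP01 Γ W).2.2.2.2 (w * t) 1 u
        rwa [mul_one, mul_assoc w t u] at this
      calc ENNReal.ofReal (c * A.kk w) * ENNReal.ofReal h₀ * W.hit 1 u
          ≤ W.hit 1 w * W.hit 1 t * W.hit 1 u :=
            mul_le_mul_left (mul_le_mul' hw hht) _
        _ = W.hit 1 w * W.hit w (w * t) * W.hit (w * t) v := by rw [e1, e2]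
        _ ≤ W.hit 1 (w * t) * W.hit (w * t) v := mul_le_mul_left (hP03 Γ W _ _ _) _
        _ ≤ W.hit 1 v := hP03 Γ W _ _ _
    have hkw0 : ENNReal.ofReal (A.kk w) ≠ 0 := by
      rw [Ne, ENNReal.ofReal_eq_zero, not_le]
      exact hwk
    have hC0 : ENNReal.ofReal (4 * C₂) ≠ 0 := by
      rw [Ne, ENNReal.ofReal_eq_zero, not_le]
      positivity
    have hmain : ENNReal.ofReal (A.kk w) * (ENNReal.ofReal (4 * C₂) *
        (ENNReal.ofReal (c₁ * c * h₀ / (4 * C₂)) * W.hit 1 u * lam E)) ≤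
        ENNReal.ofReal (A.kk w) * (ENNReal.ofReal (4 * C₂) * (A.ke u * ν E)) := by
      have e0 : ENNReal.ofReal (4 * C₂) * ENNReal.ofReal (c₁ * c * h₀ / (4 * C₂)) =
          ENNReal.ofReal c₁ * (ENNReal.ofReal c * ENNReal.ofReal h₀) := by
        rw [← ENNReal.ofReal_mul (by positivity), ← ENNReal.ofReal_mul (by positivity),
          ← ENNReal.ofReal_mul (by positivity)]
        congr 1
        field_simp
      calc ENNReal.ofReal (A.kk w) * (ENNReal.ofReal (4 * C₂) *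
            (ENNReal.ofReal (c₁ * c * h₀ / (4 * C₂)) * W.hit 1 u * lam E))
          = ENNReal.ofReal (A.kk w) * ((ENNReal.ofReal (4 * C₂) *
            ENNReal.ofReal (c₁ * c * h₀ / (4 * C₂))) * W.hit 1 u * lam E) := by ring
        _ = ENNReal.ofReal c₁ * ((ENNReal.ofReal c * ENNReal.ofReal (A.kk w)) *
            ENNReal.ofReal h₀ * W.hit 1 u) * lam E := by rw [e0]; ring
        _ = ENNReal.ofReal c₁ * (ENNReal.ofReal (c * A.kk w) * ENNReal.ofReal h₀ * W.hit 1 u) *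
            lam E := by rw [ENNReal.ofReal_mul hc.le]
        _ ≤ ENNReal.ofReal c₁ * W.hit 1 v * lam E :=
            mul_le_mul_left (mul_le_mul_right hhit _) _
        _ ≤ ENNReal.ofReal c₁ * W.hit 1 v * (ENNReal.ofReal (4 * A.kk v) * lam E') :=
            mul_le_mul_right hlamE _
        _ = ENNReal.ofReal (4 * A.kk v) * (W.hit 1 v * (ENNReal.ofReal c₁ * lam E')) := by ring
        _ ≤ ENNReal.ofReal (4 * A.kk v) * ν E := mul_le_mul_right hνE _
        _ ≤ ENNReal.ofReal (A.kk w * (4 * C₂ * A.kk u)) * ν E := by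
            refine mul_le_mul_left (ENNReal.ofReal_le_ofReal ?_) _
            calc 4 * A.kk v ≤ 4 * (C₂ * A.kk w * A.kk u) := by linarith
              _ = _ := by ring
        _ = ENNReal.ofReal (A.kk w) * (ENNReal.ofReal (4 * C₂) * (A.ke u * ν E)) := by
            rw [ENNReal.ofReal_mul hwk.le, ENNReal.ofReal_mul (by positivity), DiscRep.ke]
            ring
    have h1 := (ENNReal.mul_le_mul_iff_right hkw0 ENNReal.ofReal_ne_top).1 hmain
    exact (ENNReal.mul_le_mul_iff_right hC0 ENNReal.ofReal_ne_top).1 h1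

end Pool.Agent.SG
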