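import Pool.Agent.helper3.SG.SpecS

set_option autoImplicit false

open MeasureTheory Set Metric Filter Topology
open scoped ENNReal NNReal ComplexConjugate commutatorElement

namespace Pool.Agent.SG

/-- The line coordinate of an action on a line. -/
theorem S23_coord (Γ : Type) [Group Γ] (L : Γ → ℝ) (h1 : L 1 = 0) (h0 : ∀ g, 0 ≤ L g)
    (hinv : ∀ g, L g⁻¹ = L g) (hmul : ∀ g h, L (g * h) ≤ L g + L h)
    (h4 : ∀ g h k, min (gp L g h) (gp L h k) ≤ gp L g k)
    (ht : ∀ g h, min (gp L g h) (min (L g - gp L g h) (L h - gp L g h)) ≤ 0)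
    (s : Γ) (hs : 0 < L s) :
    ∃ f : Γ → ℝ, f 1 = 0 ∧ f s = L s ∧ ∀ g h, |f g - f h| = L (g⁻¹ * h) := by
  classical
  have hsymm' : ∀ g h, L (g⁻¹ * h) = L (h⁻¹ * g) := by
    intro g h
    rw [← hinv (g⁻¹ * h)]
    congr 1
    group
  have hsymm : ∀ g h, gp L g h = gp L h g := by
    intro g h
    simp only [gp]
    rw [hsymm' g h]
    ring
  have hgp0 : ∀ g h, 0 ≤ gp L g h := by
    intro g h
    simp only [gp]
    have := hmul g⁻¹ h
    rw [hinv] at this
    linarith
  have hK : ∀ g h, 0 < gp L g h → |L g - L h| = L (g⁻¹ * h) := by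
    intro g h hgh
    have h5 := ht g h
    have h6 := h0 (g⁻¹ * h)
    have e : gp L g h = (L g + L h - L (g⁻¹ * h)) / 2 := rfl
    rcases min_le_iff.1 h5 with h7 | h7
    · linarith
    · have h8 : L h ≤ L g + L (g⁻¹ * h) := by
        have := hmul g (g⁻¹ * h)
        rwa [mul_inv_cancel_left] at this
      have h9 : L g ≤ L h + L (g⁻¹ * h) := by
        have := hmul h (h⁻¹ * g)
        rwa [mul_inv_cancel_left, hsymm' h g] at this
      rcases min_le_iff.1 h7 with h7 | h7
      · rw [abs_of_nonpos (by linarith)]
        linarith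
      · rw [abs_of_nonneg (by linarith)]
        linarith
  have hz : ∀ g h, ¬ 0 < gp L g h → L (g⁻¹ * h) = L g + L h := by
    intro g h hgh
    have h5 := le_antisymm (not_lt.1 hgh) (hgp0 g h)
    simp only [gp] at h5
    linarith
  refine ⟨fun g => if 0 < gp L g s then L g else - L g, ?_, ?_, ?_⟩
  · simp [h1]
  · have : 0 < gp L s s := by
      simp only [gp, inv_mul_cancel, h1]
      linarith
    simp [this]
  · intro g h
    show |(if 0 < gp L g s then L g else - L g) - (if 0 < gp L h s then L h else - L h)| =
      L (g⁻¹ * h)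
    by_cases hg : 0 < gp L g s
    · by_cases hh : 0 < gp L h s
      · rw [if_pos hg, if_pos hh]
        apply hK
        refine lt_of_lt_of_le ?_ (h4 g s h)
        rw [hsymm s h]
        exact lt_min hg hh
      · rw [if_pos hg, if_neg hh]
        have h5 : ¬ 0 < gp L g h := by
          intro h6
          apply hh
          refine lt_of_lt_of_le ?_ (h4 h g s)
          rw [hsymm h g]
          exact lt_min h6 hg
        rw [hz g h h5, abs_of_nonneg (by linarith [h0 g, h0 h])]
        ring
    · by_cases hh : 0 < gp L h s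
      · rw [if_neg hg, if_pos hh]
        have h5 : ¬ 0 < gp L g h := by
          intro h6
          apply hg
          refine lt_of_lt_of_le ?_ (h4 g h s)
          exact lt_min h6 hh
        rw [hz g h h5, abs_of_nonpos (by linarith [h0 g, h0 h])]
        ring
      · rw [if_neg hg, if_neg hh]
        by_cases h5 : 0 < gp L g h
        · rw [← hK g h h5, ← abs_neg]
          congr 1
          ring
        · rw [hz g h h5]
          have hg0 := h0 g
          have hh0 := h0 h
          have h6 : ¬ (0 < L g ∧ 0 < L h) := by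
            rintro ⟨h7, h8⟩
            have h9 := ht (g⁻¹ * h) (g⁻¹ * s)
            have e1 : (g⁻¹ * h)⁻¹ * (g⁻¹ * s) = h⁻¹ * s := by group
            have e2 : gp L (g⁻¹ * h) (g⁻¹ * s) = L g := by
              simp only [gp]
              rw [e1, hz g h h5, hz g s hg, hz h s hh]
              ring
            rw [e2, hz g h h5, hz g s hg] at h9
            have : 0 < min (L g) (min (L g + L h - L g) (L g + L s - L g)) := by
              refine lt_min h7 (lt_min ?_ ?_) <;> linarith
            linarith
          by_cases h7 : 0 < L g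
          · have h8 : L h = 0 := le_antisymm (not_lt.1 fun h => h6 ⟨h7, h⟩) hh0
            rw [h8, abs_of_nonpos (by linarith)]
            ring
          · have h8 : L g = 0 := le_antisymm (not_lt.1 h7) hg0
            rw [h8, abs_of_nonneg (by linarith)]
            ring

theorem S23 : S23_stmt := by
  intro Γ _ L h1 h0 hinv hmul h4 ht hex u hu g
  obtain ⟨s, hs⟩ := hex
  obtain ⟨f, f1, fs, fd⟩ := S23_coord Γ L h1 h0 hinv hmul h4 ht s hs
  have hfabs : ∀ h, |f h| = L h := by
    intro h
    have := fd h 1
    rw [f1, sub_zero, mul_one, hinv] at this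
    exact this
  set e : Γ → ℝ := fun g => (f (g * s) - f g) / L s with he
  have hes : ∀ g, f (g * s) = f g + e g * L s := by
    intro g
    simp only [he]
    field_simp
    ring
  have he2 : ∀ g, e g * e g = 1 := by
    intro g
    have h5 := fd (g * s) g
    have e1 : (g * s)⁻¹ * g = s⁻¹ := by group
    rw [e1, hinv] at h5
    have h6 : (f (g * s) - f g) ^ 2 = L s ^ 2 := by rw [← sq_abs, h5]
    rw [hes] at h6
    have h7 : (e g * e g) * L s ^ 2 = 1 * L s ^ 2 := by
      calc (e g * e g) * L s ^ 2 = (f g + e g * L s - f g) ^ 2 := by ring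
        _ = _ := by rw [h6]; ring
    exact mul_right_cancel₀ (pow_ne_zero 2 hs.ne') h7
  have hf : ∀ g h, f (g * h) = f g + e g * f h := by
    intro g h
    have h5 := fd (g * h) g
    have e1 : (g * h)⁻¹ * g = h⁻¹ := by group
    rw [e1, hinv, ← hfabs h] at h5
    have h6 := fd (g * h) (g * s)
    have e2 : (g * h)⁻¹ * (g * s) = h⁻¹ * s := by group
    rw [e2, ← fd h s, hes, fs] at h6
    have h7 : (f (g * h) - f g) ^ 2 = f h ^ 2 := by rw [← sq_abs, h5, sq_abs]
    have h8 : (f (g * h) - (f g + e g * L s)) ^ 2 = (f h - L s) ^ 2 := by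
      rw [← sq_abs, h6, sq_abs]
    have h9 := he2 g
    have h10 : (f (g * h) - f g) * e g * L s = f h * L s := by
      have : (f (g * h) - (f g + e g * L s)) ^ 2 =
        (f (g * h) - f g) ^ 2 - 2 * ((f (g * h) - f g) * e g * L s) + (e g * e g) * L s ^ 2 := by ring
      rw [this, h7, h9] at h8
      nlinarith
    have h11 : (f (g * h) - f g) * e g = f h := mul_right_cancel₀ hs.ne' h10
    have h12 : f (g * h) - f g = e g * f h := by
      rw [← h11]
      calc f (g * h) - f g = (f (g * h) - f g) * (e g * e g) := by rw [h9, mul_one]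
        _ = _ := by ring
    linarith
  have hemul : ∀ g h, e (g * h) = e g * e h := by
    intro g h
    have h5 : f (g * h * s) = f g + e g * f h + e (g * h) * L s := by rw [hes, hf]
    have h6 : f (g * h * s) = f g + e g * (f h + e h * L s) := by
      rw [mul_assoc, hf, hes]
    have h7 : e (g * h) * L s = (e g * e h) * L s := by linarith
    exact mul_right_cancel₀ hs.ne' h7
  have he1 : e 1 = 1 := by
    simp only [he, one_mul, fs, f1, sub_zero]
    exact div_self hs.ne'
  have heinv : ∀ g, e g * e g⁻¹ = 1 := by
    intro g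
    rw [← hemul, mul_inv_cancel, he1]
  have hK1 : ∀ x ∈ derivedSeries Γ 1, e x = 1 := by
    let H : Subgroup Γ :=
      { carrier := {x | e x = 1}
        mul_mem' := by
          intro a b ha hb
          simp only [Set.mem_ofPred_eq] at ha hb ⊢
          rw [hemul, ha, hb, one_mul]
        one_mem' := he1
        inv_mem' := by
          intro a ha
          simp only [Set.mem_ofPred_eq] at ha ⊢
          have := heinv a
          rwa [ha, one_mul] at this }
    have hle : derivedSeries Γ 1 ≤ H := by
      rw [derivedSeries_succ, Subgroup.commutator_le]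
      intro a _ b _
      show e ⁅a, b⁆ = 1
      rw [commutatorElement_def, hemul, hemul, hemul]
      calc e a * e b * e a⁻¹ * e b⁻¹ = (e a * e a⁻¹) * (e b * e b⁻¹) := by ring
        _ = 1 := by rw [heinv, heinv, one_mul]
    exact fun x hx => hle hx
  have hK2 : ∀ x ∈ derivedSeries Γ 2, e x = 1 ∧ f x = 0 := by
    let H : Subgroup Γ :=
      { carrier := {x | e x = 1 ∧ f x = 0}
        mul_mem' := by
          intro a b ha hb
          simp only [Set.mem_ofPred_eq] at ha hb ⊢
          refine ⟨by rw [hemul, ha.1, hb.1, one_mul], by rw [hf, ha.2, hb.2, mul_zero, add_zero]⟩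
        one_mem' := ⟨he1, f1⟩
        inv_mem' := by
          intro a ha
          simp only [Set.mem_ofPred_eq] at ha ⊢
          have h5 := heinv a
          rw [ha.1, one_mul] at h5
          have h6 := hf a a⁻¹
          rw [mul_inv_cancel, f1, ha.1, ha.2, one_mul, zero_add] at h6
          exact ⟨h5, h6.symm⟩ }
    have hle : derivedSeries Γ 2 ≤ H := by
      rw [derivedSeries_succ, Subgroup.commutator_le]
      intro a ha b hb
      have ea := hK1 a ha
      have eb := hK1 b hb
      have ea' := heinv a
      have eb' := heinv b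
      rw [ea, one_mul] at ea'
      rw [eb, one_mul] at eb'
      have fa := hf a a⁻¹
      have fb := hf b b⁻¹
      rw [mul_inv_cancel, f1, ea, one_mul] at fa
      rw [mul_inv_cancel, f1, eb, one_mul] at fb
      show e ⁅a, b⁆ = 1 ∧ f ⁅a, b⁆ = 0
      rw [commutatorElement_def]
      refine ⟨by rw [hemul, hemul, hemul, ea, eb, ea', eb']; norm_num, ?_⟩
      rw [hf, hf, hf, hemul, hemul, hemul, ea, eb, ea']
      linarith
    exact fun x hx => hle hx
  obtain ⟨eu, fu⟩ := hK2 u hu
  have h5 := fd g (u * g)
  rw [hf, eu, fu, zero_add, one_mul, sub_self, abs_zero] at h5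
  rw [mul_assoc, ← h5]

end Pool.Agent.SG
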